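import Pool.Agent.Work.MP_992d6e_an.SA.Defs
import Pool.Agent.Work.MP_992d6e_an.Final

/-!
MODULE Anal (MP_992d6e_an, sign average): at a nondegenerate equilibrium `x` of the charges `qs q s`
the map `z ↦ (Ef q a i s z)_i` vanishes and has an invertible strict derivative.

Let `V = potential (qs q s) a`.  For `z ∉ range a`: `∂_i V(z) = - Σ_j (qs q s j) (z_i - a_ji) / dist z a_j ^ 3`
and `(qs q s j) / dist^3 = q_j / (rr a j s z)^3` (the sign `±1` is its own inverse and cube), so
`Ef q a i s z = - (∏_k (rr a k s z)^3) * ∂_i V(z)` on the open set `(range a)ᶜ`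
(`Finset.mul_prod_erase`).  Write `φ z = - ∏_k (rr a k s z)^3`, smooth and nonzero near `x`
(`dist z (a k)` is smooth off `a k`).  So near `x` the map is `φ z • ∇ V z` (or `φ z •` the image of
`fderiv ℝ V z` under the linear equivalence dual to E), `∇ V` is `C^1` near `x` as `V` is `C^2`
(`PC992.potential_contDiffAt` in Work/MP_992d6e_an/Final.lean, also usable with more smoothness), and at
`x`, where `∇ V x = 0`, its derivative is `φ x • D(∇V)(x)` (`HasStrictFDerivAt.smul`).
`D(∇V)(x)` is injective by `HasNondegenerateHessianAt` (`iteratedFDeriv ℝ 2 V x ![v, w] =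
fderiv ℝ (fderiv ℝ V) x v w`, `iteratedFDeriv_two_apply`), hence bijective in finite dimension
(`LinearEquiv.ofInjectiveEndo`, `ContinuousLinearEquiv.ofBijective`, ...).
`PC992.last_step`, `PC992.gradient_eq_zero_iff` and Sard.lean contain related computations.
-/

set_option autoImplicit false

namespace SA992

open N62f3cee0
open scoped Gradient

/-- the three functions together -/
noncomputable def Fv {n : ℕ} (q : Fin n → ℝ) (a : Fin n → E) (s : Finset (Fin n)) (z : E) : E :=
  WithLp.toLp 2 (fun i => Ef q a i s z)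

private noncomputable def anPhi {n : ℕ} (a : Fin n → E) (s : Finset (Fin n)) (z : E) : ℝ :=
  -∏ k, (rr a k s z) ^ 3

private theorem an_ne {n : ℕ} {a : Fin n → E} {z : E} (hz : z ∉ Set.range a) (j : Fin n) :
    z ≠ a j := fun h => hz ⟨j, h.symm⟩

private theorem an_fderiv {n : ℕ} (Q : Fin n → ℝ) (a : Fin n → E) {z : E}
    (hz : z ∉ Set.range a) : HasFDerivAt (potential Q a)
      (∑ j, -(Q j * (‖z - a j‖ ^ 3)⁻¹) • innerSL ℝ (z - a j)) z := by
  unfold potential
  exact HasFDerivAt.fun_sum fun j _ => PC992.Sard.hasFDerivAt_inv_dist (Q j) (an_ne hz j)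

private theorem an_rr {n : ℕ} (q : Fin n → ℝ) (a : Fin n → E) (s : Finset (Fin n)) {z : E}
    (hz : z ∉ Set.range a) (j : Fin n) :
    (rr a j s z) ^ 3 * (qs q s j * (‖z - a j‖ ^ 3)⁻¹) = q j := by
  have h0 : ‖z - a j‖ ≠ 0 := norm_ne_zero_iff.2 (sub_ne_zero.2 (an_ne hz j))
  unfold rr qs
  rw [dist_eq_norm]
  split_ifs <;> field_simp

private theorem an_Ef {n : ℕ} (q : Fin n → ℝ) (a : Fin n → E) (s : Finset (Fin n)) {z : E}
    (hz : z ∉ Set.range a) (i : Fin 3) :
    Ef q a i s z = anPhi a s z * PC992.Sard.L (fderiv ℝ (potential (qs q s) a) z) i := by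
  rw [(an_fderiv (qs q s) a hz).fderiv, map_sum]
  have h1 : ∀ j, PC992.Sard.L (-(qs q s j * (‖z - a j‖ ^ 3)⁻¹) • innerSL ℝ (z - a j)) =
      -(qs q s j * (‖z - a j‖ ^ 3)⁻¹) • (z - a j) := by
    intro j
    rw [map_smul, PC992.Sard.L_inner]
  have h2 : (∑ j, PC992.Sard.L (-(qs q s j * (‖z - a j‖ ^ 3)⁻¹) • innerSL ℝ (z - a j))) i =
      ∑ j, -(qs q s j * (‖z - a j‖ ^ 3)⁻¹) * (z i - a j i) := by
    rw [Finset.sum_congr rfl fun j _ => h1 j]
    simp
  rw [h2]
  unfold anPhi Ef
  rw [Finset.mul_sum]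
  refine Finset.sum_congr rfl fun j _ => ?_
  rw [← Finset.mul_prod_erase Finset.univ _ (Finset.mem_univ j)]
  have h3 := an_rr q a s hz j
  linear_combination (-(z i - a j i) * ∏ k ∈ Finset.univ.erase j, (rr a k s z) ^ 3) * h3

private theorem an_Fv {n : ℕ} (q : Fin n → ℝ) (a : Fin n → E) (s : Finset (Fin n)) {z : E}
    (hz : z ∉ Set.range a) :
    Fv q a s z = anPhi a s z • PC992.Sard.L (fderiv ℝ (potential (qs q s) a) z) := by
  ext i
  show Ef q a i s z = _
  rw [an_Ef q a s hz]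
  rfl

theorem Ef_zero {n : ℕ} (q : Fin n → ℝ) (a : Fin n → E) (s : Finset (Fin n)) (x : E)
    (hx : x ∈ equilibria (qs q s) a) (i : Fin 3) : Ef q a i s x = 0 := by
  rw [an_Ef q a s hx.1, PC992.gradient_eq_zero_iff.1 hx.2, map_zero]
  simp

private theorem an_phi_ne {n : ℕ} (a : Fin n → E) (s : Finset (Fin n)) {z : E}
    (hz : z ∉ Set.range a) : anPhi a s z ≠ 0 := by
  unfold anPhi
  rw [neg_ne_zero]
  refine Finset.prod_ne_zero_iff.2 fun k _ => pow_ne_zero 3 ?_
  have h0 : dist z (a k) ≠ 0 := dist_ne_zero.2 (an_ne hz k)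
  unfold rr
  split_ifs
  · exact neg_ne_zero.2 h0
  · exact h0

private theorem an_phi_diff {n : ℕ} (a : Fin n → E) (s : Finset (Fin n)) {z : E}
    (hz : z ∉ Set.range a) : ContDiffAt ℝ 1 (anPhi a s) z := by
  unfold anPhi
  refine ContDiffAt.neg ?_
  refine contDiffAt_prod fun k _ => ContDiffAt.pow ?_ 3
  have h0 : ContDiffAt ℝ 1 (fun z : E => dist z (a k)) z := by
    have h1 : ContDiffAt ℝ 1 (fun z : E => ‖z - a k‖) z :=
      ContDiffAt.norm ℝ (contDiffAt_id.sub contDiffAt_const) (sub_ne_zero.2 (an_ne hz k))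
    simpa only [dist_eq_norm] using h1
  by_cases hk : k ∈ s
  · have : rr a k s = fun z => -dist z (a k) := by
      funext z
      exact if_pos hk
    rw [this]
    exact h0.neg
  · have : rr a k s = fun z => dist z (a k) := by
      funext z
      exact if_neg hk
    rw [this]
    exact h0

theorem Fv_deriv {n : ℕ} (q : Fin n → ℝ) (a : Fin n → E) (s : Finset (Fin n)) (x : E)
    (hx : x ∈ equilibria (qs q s) a)
    (hnd : HasNondegenerateHessianAt (potential (qs q s) a) x) :
    ∃ F' : E ≃L[ℝ] E, HasStrictFDerivAt (Fv q a s) (F' : E →L[ℝ] E) x := by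
  set V := potential (qs q s) a with hV
  have hx1 : x ∉ Set.range a := hx.1
  have hd0 : fderiv ℝ V x = 0 := PC992.gradient_eq_zero_iff.1 hx.2
  have hC : ContDiffAt ℝ 2 V x := PC992.potential_contDiffAt (qs q s) a hx1
  have hC1 : ContDiffAt ℝ 1 (fderiv ℝ V) x := hC.fderiv_right (m := 1) (by norm_num)
  have hG := hC1.hasStrictFDerivAt (by norm_num)
  have hLG : HasStrictFDerivAt (fun z => PC992.Sard.L (fderiv ℝ V z))
      (PC992.Sard.L.comp (fderiv ℝ (fderiv ℝ V) x)) x :=
    PC992.Sard.L.hasStrictFDerivAt.comp x hG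
  have hPhi := (an_phi_diff a s hx1).hasStrictFDerivAt (by norm_num)
  have hprod := hPhi.smul hLG
  have hval : PC992.Sard.L (fderiv ℝ V x) = 0 := by rw [hd0, map_zero]
  set T : E →L[ℝ] E := anPhi a s x • PC992.Sard.L.comp (fderiv ℝ (fderiv ℝ V) x) with hT
  have hder : HasStrictFDerivAt (fun z => anPhi a s z • PC992.Sard.L (fderiv ℝ V z)) T x := by
    rw [hval, ContinuousLinearMap.smulRight_zero, add_zero] at hprod
    exact hprod
  have hopen : IsOpen (Set.range a)ᶜ := (Set.finite_range a).isClosed.isOpen_compl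
  have hev : (fun z => anPhi a s z • PC992.Sard.L (fderiv ℝ V z)) =ᶠ[nhds x] Fv q a s := by
    filter_upwards [hopen.mem_nhds hx1] with z hz
    exact (an_Fv q a s hz).symm
  have hfin := hder.congr_of_eventuallyEq hev
  have hLinj : ∀ φ : E →L[ℝ] ℝ, PC992.Sard.L φ = 0 → φ = 0 := by
    intro φ hφ
    have h1 : ∀ i, φ (EuclideanSpace.single i 1) = 0 := by
      intro i
      rw [← PC992.Sard.L_apply, hφ]
      rfl
    ext w
    have hw : w = ∑ i, w i • EuclideanSpace.single i (1 : ℝ) := by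
      ext j
      simp [Finset.sum_apply, Pi.single_apply]
    rw [hw, map_sum]
    simp [h1]
  have hinj : Function.Injective T := by
    rw [injective_iff_map_eq_zero]
    intro v hv
    by_contra hv0
    obtain ⟨w, hw⟩ := hnd v hv0
    apply hw
    rw [iteratedFDeriv_two_apply]
    have h1 : anPhi a s x • PC992.Sard.L (fderiv ℝ (fderiv ℝ V) x v) = 0 := hv
    have h2 := (smul_eq_zero.1 h1).resolve_left (an_phi_ne a s hx1)
    have h3 := hLinj _ h2
    show fderiv ℝ (fderiv ℝ V) x v w = 0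
    rw [h3]
    rfl
  refine ⟨(LinearEquiv.ofInjectiveEndo T.toLinearMap hinj).toContinuousLinearEquiv, ?_⟩
  have hT' : (((LinearEquiv.ofInjectiveEndo T.toLinearMap hinj).toContinuousLinearEquiv :
      E ≃L[ℝ] E) : E →L[ℝ] E) = T := by
    ext v
    rfl
  rw [hT']
  exact hfin

end SA992
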