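import Mathlib
import Pool.Prelude.Def_F_d420a142

/-!
MP_992d6e_an, average over the signs of the charges: common definitions.

`Fun n` is the algebra of functions of a sign pattern `s` (the set of charges whose sign is
changed) and a point `x`.  `rr a s k` is the signed distance to the charge `k`.
-/

set_option autoImplicit false

namespace SA992

open N62f3cee0

/-- Euclidean three-space. -/
abbrev E := EuclideanSpace ℝ (Fin 3)

/-- functions of a sign pattern and a point -/
abbrev Fun (n : ℕ) := Finset (Fin n) → E → ℝ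

/-- signed distance to the charge `k` -/
noncomputable def rr {n : ℕ} (a : Fin n → E) (k : Fin n) : Fun n :=
  fun s x => if k ∈ s then -dist x (a k) else dist x (a k)

/-- the charges with the signs on `s` changed -/
def qs {n : ℕ} (q : Fin n → ℝ) (s : Finset (Fin n)) : Fin n → ℝ :=
  fun j => if j ∈ s then -q j else q j

/-- the `i`-th coordinate as an element of `Fun n` -/
def co {n : ℕ} (i : Fin 3) : Fun n := fun _ x => x i

/-- the square of the norm as an element of `Fun n` -/
noncomputable def tt {n : ℕ} : Fun n := fun _ x => ‖x‖ ^ 2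

/-- `(∏ r_k^3) * Σ_j q_j (x_i - a_ji) / r_j^3`, without denominators -/
noncomputable def Ef {n : ℕ} (q : Fin n → ℝ) (a : Fin n → E) (i : Fin 3) : Fun n :=
  fun s x => ∑ j, q j * (x i - a j i) * ∏ k ∈ Finset.univ.erase j, (rr a k s x) ^ 3

/-- separating function -/
noncomputable def Yf {n : ℕ} (a : Fin n → E) (c : Fin 3 → ℝ) (d : Fin n → ℝ) : Fun n :=
  fun s x => (∑ i, c i * x i) + ∑ k, d k * rr a k s x

/-- the exponents of a reduced monomial -/
abbrev Idx (n : ℕ) := ℕ × ℕ × ℕ × Bool × Finset (Fin n)

/-- reduced monomials `x_0^α x_1^β t^γ x_2^δ r^S` with `δ ∈ {0, 1}` and `S` a set -/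
noncomputable def mon {n : ℕ} (a : Fin n → E) (m : Idx n) : Fun n :=
  co 0 ^ m.1 * co 1 ^ m.2.1 * tt ^ m.2.2.1 * (if m.2.2.2.1 then co 2 else 1) *
    ∏ k ∈ m.2.2.2.2, rr a k

/-- their weight: the coordinates and `t` have weight `2`, the distances weight `1` -/
def wt {n : ℕ} (m : Idx n) : ℕ :=
  2 * (m.1 + m.2.1 + m.2.2.1 + (if m.2.2.2.1 then 1 else 0)) + m.2.2.2.2.card

/-- span of the reduced monomials of weight at most `D` -/
noncomputable def R {n : ℕ} (a : Fin n → E) (D : ℕ) : Submodule ℝ (Fun n) :=
  Submodule.span ℝ (mon a '' {m | wt m ≤ D})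

end SA992
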