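import Pool.Agent.Work.MP_992d6e_an.SA.Defs

/-!
MODULE Dim (MP_992d6e_an, sign average): `R a D` has dimension at most the number of reduced
monomials of weight `≤ D`.  With `m = D / 2`, such a monomial has `α + β + γ ≤ m`, and `δ`, `S`
arbitrary, so there are at most `2 * 2^n * C(m+3, 3)` of them.

`card_triples`: `#{(α,β,γ) : α + β + γ ≤ m} * 6 = (m+1)(m+2)(m+3)` (induction on `m`, or the sum over
`α` of `C(m - α + 2, 2)`, or fibre over the sum and `Finset.Nat.card_antidiagonalTuple`).
`finrank_R`: `finrank_span_le_card` or `Set.finrank_le..`, for the image under `mon a` of the finite set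
`T ×ˢ univ ×ˢ univ` rearranged.
-/

set_option autoImplicit false

namespace SA992

/-- triples with sum at most `m` -/
def trip (m : ℕ) : Finset (ℕ × ℕ × ℕ) :=
  ((Finset.range (m + 1)) ×ˢ (Finset.range (m + 1)) ×ˢ (Finset.range (m + 1))).filter
    (fun p => p.1 + p.2.1 + p.2.2 ≤ m)

theorem dim_aux1 (c M : ℕ) : ∑ γ ∈ Finset.range M, (if c + γ < M then 1 else 0) = M - c := by
  rw [← Finset.card_filter]
  have : (Finset.range M).filter (fun γ => c + γ < M) = Finset.range (M - c) := by
    ext γ
    simp only [Finset.mem_filter, Finset.mem_range]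
    omega
  rw [this, Finset.card_range]

theorem dim_aux2 (M : ℕ) : ∀ k ≤ M, 2 * ∑ β ∈ Finset.range M, (k - β) = k * (k + 1) := by
  induction M with
  | zero =>
    intro k hk
    obtain rfl : k = 0 := by omega
    simp
  | succ M ih =>
    intro k hk
    rcases Nat.lt_or_ge M k with h | h
    · obtain rfl : k = M + 1 := by omega
      rw [Finset.sum_range_succ']
      have h1 : ∀ β ∈ Finset.range M, (M + 1 - (β + 1)) = M - β := by
        intro β _
        omega
      rw [Finset.sum_congr rfl h1, mul_add, ih M le_rfl]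
      simp only [Nat.sub_zero]
      ring
    · rw [Finset.sum_range_succ, Nat.sub_eq_zero_of_le h, add_zero]
      exact ih k h

theorem dim_aux3 (M : ℕ) :
    3 * ∑ j ∈ Finset.range M, ((j + 1) * (j + 2)) = M * (M + 1) * (M + 2) := by
  induction M with
  | zero => simp
  | succ M ih =>
    rw [Finset.sum_range_succ, mul_add, ih]
    ring

theorem card_trip (m : ℕ) : 6 * (trip m).card = (m + 1) * (m + 2) * (m + 3) := by
  have h0 : (trip m).card = ∑ α ∈ Finset.range (m + 1), ∑ β ∈ Finset.range (m + 1),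
      (m + 1 - α - β) := by
    rw [trip, Finset.card_filter, Finset.sum_product]
    refine Finset.sum_congr rfl fun α _ => ?_
    rw [Finset.sum_product]
    refine Finset.sum_congr rfl fun β _ => ?_
    have := dim_aux1 (α + β) (m + 1)
    rw [Nat.sub_sub, ← this]
    refine Finset.sum_congr rfl fun γ _ => ?_
    have : (α + β + γ ≤ m) ↔ (α + β + γ < m + 1) := by omega
    simp only [this]
  have h1 : 2 * (trip m).card = ∑ α ∈ Finset.range (m + 1), (m + 1 - α) * (m + 1 - α + 1) := by
    rw [h0, Finset.mul_sum]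
    refine Finset.sum_congr rfl fun α _ => ?_
    exact dim_aux2 (m + 1) (m + 1 - α) (by omega)
  have h2 : ∑ α ∈ Finset.range (m + 1), (m + 1 - α) * (m + 1 - α + 1) =
      ∑ j ∈ Finset.range (m + 1), ((j + 1) * (j + 2)) := by
    rw [← Finset.sum_range_reflect]
    refine Finset.sum_congr rfl fun α hα => ?_
    rw [Finset.mem_range] at hα
    have : m + 1 - (m + 1 - 1 - α) = α + 1 := by omega
    rw [this]
  have h3 := dim_aux3 (m + 1)
  calc 6 * (trip m).card = 3 * (2 * (trip m).card) := by ring
    _ = (m + 1) * (m + 2) * (m + 3) := by rw [h1, h2, h3]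

variable {n : ℕ} (a : Fin n → E)

/-- the exponents of weight at most `D`, and possibly more -/
def idx (n D : ℕ) : Finset (Idx n) :=
  ((trip (D / 2)) ×ˢ ((Finset.univ : Finset Bool) ×ˢ
    (Finset.univ : Finset (Finset (Fin n))))).image
    (fun p => (p.1.1, p.1.2.1, p.1.2.2, p.2.1, p.2.2))

theorem mem_idx {D : ℕ} {m : Idx n} (hm : wt m ≤ D) : m ∈ idx n D := by
  rw [idx, Finset.mem_image]
  refine ⟨((m.1, m.2.1, m.2.2.1), (m.2.2.2.1, m.2.2.2.2)), ?_, rfl⟩
  simp only [trip, Finset.mem_product, Finset.mem_filter, Finset.mem_range, Finset.mem_univ,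
    and_true]
  unfold wt at hm
  refine ⟨⟨?_, ?_, ?_⟩, ?_⟩ <;> omega

theorem card_idx (D : ℕ) : (idx n D).card ≤ (trip (D / 2)).card * (2 * 2 ^ n) := by
  refine Finset.card_image_le.trans ?_
  rw [Finset.card_product, Finset.card_product]
  simp

open Classical in
theorem R_le (D : ℕ) : R a D ≤ Submodule.span ℝ (((idx n D).image (mon a) : Finset (Fun n)) :
    Set (Fun n)) := by
  refine Submodule.span_mono ?_
  rintro _ ⟨m, hm, rfl⟩
  rw [Finset.mem_coe, Finset.mem_image]
  exact ⟨m, mem_idx hm, rfl⟩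

theorem finite_R (D : ℕ) : Module.Finite ℝ (R a D) := by
  classical
  have := Submodule.finiteDimensional_of_le (R_le a D)
  exact this

theorem finrank_R (D : ℕ) : 6 * Module.finrank ℝ (R a D) ≤
    2 ^ (n + 1) * ((D / 2 + 1) * (D / 2 + 2) * (D / 2 + 3)) := by
  classical
  have h1 : Module.finrank ℝ (R a D) ≤ (idx n D).card := by
    refine (Submodule.finrank_mono (R_le a D)).trans ?_
    exact (finrank_span_finset_le_card _).trans Finset.card_image_le
  have h2 := card_idx (n := n) D
  have h3 := card_trip (D / 2)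
  calc 6 * Module.finrank ℝ (R a D) ≤ 6 * ((trip (D / 2)).card * (2 * 2 ^ n)) :=
        Nat.mul_le_mul_left _ (h1.trans h2)
    _ = (6 * (trip (D / 2)).card) * (2 * 2 ^ n) := by ring
    _ = 2 ^ (n + 1) * ((D / 2 + 1) * (D / 2 + 2) * (D / 2 + 3)) := by rw [h3]; ring

end SA992
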