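import Pool.Agent.Work.MP_992d6e_an.SA.Span
import Pool.Agent.Work.MP_992d6e_an.SA.Dim

/-!
MODULE Dep (MP_992d6e_an, sign average): the counting argument.

Put `c = 3n - 1`, `L = K + 3`, let `B` be a natural number with
`B > 2^n (3 c^2 L + 3 c L^2 + L^3)`, `B ≥ 1`, and consider the functions `y^α f^b` (`α < K`,
`b ∈ trip (2B)`, `f^b = f_0^{b_0} f_1^{b_1} f_2^{b_2}`).
By `mul_mem`, `pow_mem` they lie in `R a D`, `D = 2 K + 2 B c` (`2 α + c (b_0 + b_1 + b_2) ≤ D`), and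
`D / 2 = K + B c`.  By `card_trip` there are `K (2B+1)(2B+2)(2B+3)/6 > K 8 B^3 / 6` of them and by
`finrank_R` the dimension is at most `2^{n+1} (K + Bc + 3)^3 / 6`.
As `4 K ≥ 2^n c^3 + 1`, `8 K B^3 ≥ 2^{n+1} c^3 B^3 + 2 B^3` and
`(Bc + L)^3 = B^3 c^3 + 3 B^2 c^2 L + 3 B c L^2 + L^3 ≤ B^3 c^3 + B^2 (3 c^2 L + 3 c L^2 + L^3)`,
the number of functions is larger, so they are linearly dependent:
`Σ_{α, b} λ_{α,b} y^α f^b = 0` with `λ ≠ 0`
(e.g. a linear map from `(range K ×ˢ trip (2B)) → ℝ` to `R a D` is not injective: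
`LinearMap.exists_ne_zero_of_finrank_lt` or `exists_nontrivial_relation_of_finrank_lt_card`).
Take `p α = Σ_b λ_{α,b} X_0^{b_0} X_1^{b_1} X_2^{b_2}` (`MvPolynomial.monomial`, the exponents are
distinct, so `p α ≠ 0` for some `α`, look at a coefficient).
-/

set_option autoImplicit false

namespace SA992

theorem numeric (n K : ℕ) (hK : 2 ^ n * (3 * n - 1) ^ 3 < 4 * K) : ∃ B : ℕ,
    2 ^ (n + 1) * (((2 * K + 2 * B * (3 * n - 1)) / 2 + 1) *
      ((2 * K + 2 * B * (3 * n - 1)) / 2 + 2) * ((2 * K + 2 * B * (3 * n - 1)) / 2 + 3)) <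
    K * ((2 * B + 1) * (2 * B + 2) * (2 * B + 3)) := by
  set c := 3 * n - 1 with hc
  set P := 2 ^ n with hP
  set L := K + 3 with hL
  set M := P * (3 * c ^ 2 * L + 3 * c * L ^ 2 + L ^ 3) with hM
  refine ⟨M + 1, ?_⟩
  set B := M + 1 with hB
  have hB1 : 1 ≤ B := by omega
  have e1 : (2 * K + 2 * B * c) / 2 = K + B * c := by
    have : 2 * K + 2 * B * c = 2 * (K + B * c) := by ring
    rw [this, Nat.mul_div_cancel_left _ (by norm_num)]
  rw [e1]
  have h1 : P * (3 * B ^ 2 * c ^ 2 * L + 3 * B * c * L ^ 2 + L ^ 3) ≤ B ^ 2 * M := by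
    have hBB : B ≤ B ^ 2 := by nlinarith
    have h1B : 1 ≤ B ^ 2 := by nlinarith
    calc P * (3 * B ^ 2 * c ^ 2 * L + 3 * B * c * L ^ 2 + L ^ 3)
        ≤ P * (3 * B ^ 2 * c ^ 2 * L + 3 * B ^ 2 * c * L ^ 2 + B ^ 2 * L ^ 3) := by
          gcongr
          exact Nat.le_mul_of_pos_left _ (by omega)
      _ = B ^ 2 * M := by rw [hM]; ring
  have h2 : B ^ 2 * M < B ^ 3 := by
    have : B ^ 3 = B ^ 2 * M + B ^ 2 := by rw [hB]; ring
    rw [this]
    have : 0 < B ^ 2 := by positivity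
    omega
  have h3 : (K + B * c + 1) * (K + B * c + 2) * (K + B * c + 3) ≤ (B * c + L) ^ 3 := by
    have e2 : (B * c + L) ^ 3 = (K + B * c + 3) * (K + B * c + 3) * (K + B * c + 3) := by
      rw [hL]; ring
    rw [e2]
    gcongr <;> omega
  have h4 : 2 ^ (n + 1) = 2 * P := by rw [hP]; ring
  rw [h4]
  have h5 : 8 * B ^ 3 ≤ (2 * B + 1) * (2 * B + 2) * (2 * B + 3) := by
    have : (2 * B + 1) * (2 * B + 2) * (2 * B + 3) = 8 * B ^ 3 + (24 * B ^ 2 + 22 * B + 6) := by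
      ring
    omega
  have hK' : P * c ^ 3 + 1 ≤ 4 * K := hK
  calc 2 * P * ((K + B * c + 1) * (K + B * c + 2) * (K + B * c + 3))
      ≤ 2 * P * (B * c + L) ^ 3 := by gcongr
    _ = 2 * P * c ^ 3 * B ^ 3 +
        2 * (P * (3 * B ^ 2 * c ^ 2 * L + 3 * B * c * L ^ 2 + L ^ 3)) := by ring
    _ < 2 * P * c ^ 3 * B ^ 3 + 2 * B ^ 3 := by omega
    _ = 2 * B ^ 3 * (P * c ^ 3 + 1) := by ring
    _ ≤ 2 * B ^ 3 * (4 * K) := by gcongr
    _ = K * (8 * B ^ 3) := by ring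
    _ ≤ K * ((2 * B + 1) * (2 * B + 2) * (2 * B + 3)) := by gcongr

/-- exponent vector -/
private noncomputable def dpE (b : ℕ × ℕ × ℕ) : Fin 3 →₀ ℕ :=
  Finsupp.single 0 b.1 + Finsupp.single 1 b.2.1 + Finsupp.single 2 b.2.2

private theorem dpE_inj : Function.Injective dpE := by
  intro b b' h
  have h0 := DFunLike.congr_fun h 0
  have h1 := DFunLike.congr_fun h 1
  have h2 := DFunLike.congr_fun h 2
  simp [dpE] at h0 h1 h2
  exact Prod.ext h0 (Prod.ext h1 h2)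

private theorem dpE_prod {n : ℕ} (f : Fin 3 → Fun n) (b : ℕ × ℕ × ℕ) (r : ℝ) :
    MvPolynomial.aeval f (MvPolynomial.monomial (dpE b) r) =
      r • (f 0 ^ b.1 * f 1 ^ b.2.1 * f 2 ^ b.2.2) := by
  rw [MvPolynomial.aeval_monomial, Algebra.smul_def]
  congr 1
  rw [Finsupp.prod_fintype _ _ (fun i => pow_zero _), Fin.prod_univ_three]
  simp [dpE]

theorem dep {n : ℕ} (a : Fin n → E) (K : ℕ) (hK : 2 ^ n * (3 * n - 1) ^ 3 < 4 * K)
    (f : Fin 3 → Fun n) (hf : ∀ i, f i ∈ R a (3 * n - 1)) (y : Fun n) (hy : y ∈ R a 2) :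
    ∃ p : ℕ → MvPolynomial (Fin 3) ℝ, (∃ α < K, p α ≠ 0) ∧
      ∑ α ∈ Finset.range K, MvPolynomial.aeval f (p α) * y ^ α = 0 := by
  classical
  obtain ⟨B, hB⟩ := numeric n K hK
  set c := 3 * n - 1 with hc
  set D := 2 * K + 2 * B * c with hD
  set s := Finset.range K ×ˢ trip (2 * B) with hs
  set v : ℕ × (ℕ × ℕ × ℕ) → Fun n :=
    fun x => y ^ x.1 * (f 0 ^ x.2.1 * f 1 ^ x.2.2.1 * f 2 ^ x.2.2.2) with hv
  have hmem : ∀ x ∈ s, v x ∈ R a D := by
    intro x hx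
    rw [hs, Finset.mem_product, Finset.mem_range, trip, Finset.mem_filter] at hx
    have h1 := mul_mem a (pow_mem a hy x.1)
      (mul_mem a (mul_mem a (pow_mem a (hf 0) x.2.1) (pow_mem a (hf 1) x.2.2.1))
        (pow_mem a (hf 2) x.2.2.2))
    refine R_mono a ?_ h1
    have h2 : (x.2.1 + x.2.2.1 + x.2.2.2) * c ≤ (2 * B) * c := Nat.mul_le_mul_right c hx.2.2
    have h3 : x.1 * 2 + (x.2.1 * c + x.2.2.1 * c + x.2.2.2 * c) =
        2 * x.1 + (x.2.1 + x.2.2.1 + x.2.2.2) * c := by ring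
    rw [h3, hD]
    omega
  have hfin : Module.Finite ℝ (R a D) := finite_R a D
  set w : {x // x ∈ s} → R a D := fun x => ⟨v x.1, hmem x.1 x.2⟩ with hw
  have hcard : Module.finrank ℝ (R a D) < Fintype.card {x // x ∈ s} := by
    rw [Fintype.card_coe, hs, Finset.card_product, Finset.card_range]
    have h1 := finrank_R a D
    have h2 := card_trip (2 * B)
    have h3 : 6 * Module.finrank ℝ (R a D) < 6 * (K * (trip (2 * B)).card) := by
      calc 6 * Module.finrank ℝ (R a D)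
          ≤ 2 ^ (n + 1) * ((D / 2 + 1) * (D / 2 + 2) * (D / 2 + 3)) := h1
        _ < K * ((2 * B + 1) * (2 * B + 2) * (2 * B + 3)) := hB
        _ = 6 * (K * (trip (2 * B)).card) := by rw [← h2]; ring
    omega
  have hnli : ¬ LinearIndependent ℝ w := by
    intro h
    exact absurd h.fintype_card_le_finrank (by omega)
  rw [Fintype.not_linearIndependent_iff] at hnli
  obtain ⟨g, hg0, x0, hx0⟩ := hnli
  set G : ℕ × (ℕ × ℕ × ℕ) → ℝ := fun x => if h : x ∈ s then g ⟨x, h⟩ else 0 with hG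
  have hGs : ∀ x : {x // x ∈ s}, G x.1 = g x := fun x => dif_pos x.2
  have hsum : ∑ x ∈ s, G x • v x = 0 := by
    have h1 : ∑ x : {x // x ∈ s}, g x • v x.1 = 0 := by
      have := congrArg (Submodule.subtype (R a D)) hg0
      rw [map_sum, map_zero] at this
      simpa [hw] using this
    rw [← Finset.sum_coe_sort, ← h1]
    exact Finset.sum_congr rfl fun x _ => by rw [hGs]
  refine ⟨fun α => ∑ b ∈ trip (2 * B), MvPolynomial.monomial (dpE b) (G (α, b)), ?_, ?_⟩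
  · obtain ⟨⟨α0, b0⟩, hx0s⟩ := x0
    have hx0' := hx0s
    rw [hs, Finset.mem_product, Finset.mem_range] at hx0'
    refine ⟨α0, hx0'.1, fun h => hx0 ?_⟩
    have h1 := congrArg (MvPolynomial.coeff (dpE b0)) h
    rw [MvPolynomial.coeff_sum, MvPolynomial.coeff_zero,
      Finset.sum_eq_single_of_mem b0 hx0'.2] at h1
    · rw [MvPolynomial.coeff_monomial, if_pos rfl] at h1
      rw [← hGs]
      exact h1
    · intro b _ hb
      rw [MvPolynomial.coeff_monomial, if_neg fun h => hb (dpE_inj h)]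
  · rw [← hsum, hs, Finset.sum_product]
    refine Finset.sum_congr rfl fun α _ => ?_
    rw [map_sum, Finset.sum_mul]
    refine Finset.sum_congr rfl fun b _ => ?_
    rw [dpE_prod, hv]
    simp only [smul_mul_assoc]
    congr 1
    ring

end SA992
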