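import Pool.Agent.Work.MP_992d6e_an.SA.Defs

/-!
MODULE Sep (MP_992d6e_an, sign average): a linear combination of the coordinates and the signed
distances that separates finitely many pairs `(s, x)`.

The vector `v(s,x) = (x_0, x_1, x_2, r_1, ..., r_n) ∈ ℝ^{3+n}` determines `(s, x)` when `x ∉ range a`:
`x` is read off, and `rr a k s x` is negative iff `k ∈ s`, as `dist x (a k) > 0`.
Take `c i = λ^i`, `d k = λ^{3+k}`: for `z ≠ z'` in `Z` the difference `Y z - Y z'` is a nonzero
polynomial in `λ` (`Polynomial` with these coefficients), so it vanishes for finitely many `λ` only;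
choose `λ` outside the finite union of the root sets (`Infinite ℝ`, `Set.Infinite.exists_notMem_finset`).
-/

set_option autoImplicit false

namespace SA992

/-- the vector of coordinates and signed distances -/
noncomputable def sepv {n : ℕ} (a : Fin n → E) (z : Finset (Fin n) × E) : Fin 3 ⊕ Fin n → ℝ :=
  Sum.elim (fun i => z.2 i) (fun k => rr a k z.1 z.2)

theorem sepv_inj {n : ℕ} (a : Fin n → E) (z z' : Finset (Fin n) × E)
    (hz : z.2 ∉ Set.range a) (h : sepv a z = sepv a z') : z = z' := by
  obtain ⟨s, x⟩ := z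
  obtain ⟨s', x'⟩ := z'
  have hx : x = x' := by
    ext i
    exact congrFun h (Sum.inl i)
  subst hx
  have hs : s = s' := by
    ext k
    have hpos : 0 < dist x (a k) := dist_pos.mpr fun hc => hz ⟨k, hc.symm⟩
    have hk : rr a k s x = rr a k s' x := congrFun h (Sum.inr k)
    unfold rr at hk
    by_cases h1 : k ∈ s <;> by_cases h2 : k ∈ s' <;> simp only [h1, h2, if_true, if_false] at hk ⊢
    · linarith
    · linarith
  rw [hs]

theorem exists_sep {n : ℕ} (a : Fin n → E) (Z : Finset (Finset (Fin n) × E))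
    (hZ : ∀ z ∈ Z, z.2 ∉ Set.range a) :
    ∃ (c : Fin 3 → ℝ) (d : Fin n → ℝ), ∀ z ∈ Z, ∀ z' ∈ Z, z ≠ z' →
      Yf a c d z.1 z.2 ≠ Yf a c d z'.1 z'.2 := by
  classical
  obtain ⟨f, hf⟩ := Module.exists_dual_forall_apply_ne_zero (K := ℝ)
    (M := Fin 3 ⊕ Fin n → ℝ)
    (ι := {p : (↥Z) × (↥Z) // p.1 ≠ p.2})
    (fun p => sepv a p.1.1.1 - sepv a p.1.2.1)
    (fun p => by
      rw [Ne, sub_eq_zero]
      intro h
      exact p.2 (Subtype.ext (sepv_inj a _ _ (hZ _ p.1.1.2) h)))
  refine ⟨fun i => f (Pi.single (Sum.inl i) 1), fun k => f (Pi.single (Sum.inr k) 1), ?_⟩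
  have key : ∀ z : Finset (Fin n) × E, Yf a (fun i => f (Pi.single (Sum.inl i) 1))
      (fun k => f (Pi.single (Sum.inr k) 1)) z.1 z.2 = f (sepv a z) := by
    intro z
    have h1 : sepv a z = ∑ j, (sepv a z j) • (Pi.single j (1 : ℝ) : Fin 3 ⊕ Fin n → ℝ) := by
      ext j
      simp [Finset.sum_apply, Pi.single_apply]
    rw [h1, map_sum, Fintype.sum_sum_type]
    unfold Yf
    simp only [map_smul, smul_eq_mul]
    congr 1
    · exact Finset.sum_congr rfl fun i _ => mul_comm _ _
    · exact Finset.sum_congr rfl fun i _ => mul_comm _ _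
  intro z hz z' hz' hne h
  rw [key, key] at h
  have h2 := hf ⟨(⟨z, hz⟩, ⟨z', hz'⟩), fun hc => hne (congrArg Subtype.val hc)⟩
  apply h2
  rw [map_sub, sub_eq_zero]
  exact h

theorem Yf_continuous {n : ℕ} (a : Fin n → E) (c : Fin 3 → ℝ) (d : Fin n → ℝ)
    (s : Finset (Fin n)) : Continuous (Yf a c d s) := by
  unfold Yf
  refine Continuous.add ?_ ?_
  · refine continuous_finsetSum _ fun i _ => ?_
    exact continuous_const.mul (EuclideanSpace.proj i).continuous
  · refine continuous_finsetSum _ fun k _ => continuous_const.mul ?_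
    unfold rr
    by_cases h : k ∈ s
    · simp only [h, if_true]
      exact (continuous_id.dist continuous_const).neg
    · simp only [h, if_false]
      exact continuous_id.dist continuous_const

end SA992
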