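import Pool.Agent.Work.MP_992d6e_an.SA.Dep
import Pool.Agent.Work.MP_992d6e_an.SA.Anal
import Pool.Agent.Work.MP_992d6e_an.SA.Sep

/-!
MODULE Loc (MP_992d6e_an, sign average), helper30: the final argument.
-/

set_option autoImplicit false

namespace SA992

open N62f3cee0 Filter Topology
open scoped Gradient

theorem aeval_apply {n : ℕ} (f : Fin 3 → Fun n) (P : MvPolynomial (Fin 3) ℝ)
    (s : Finset (Fin n)) (x : E) :
    (MvPolynomial.aeval f P) s x = MvPolynomial.eval (fun i => f i s x) P := by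
  induction P using MvPolynomial.induction_on with
  | C c => simp [MvPolynomial.algebraMap_eq]
  | add p q hp hq => simp [hp, hq]
  | mul_X p i hp => simp [hp]

theorem poly_zero (p : MvPolynomial (Fin 3) ℝ)
    (h : ∀ᶠ v : E in 𝓝 0, MvPolynomial.eval (fun i => v i) p = 0) : p = 0 := by
  obtain ⟨ε, hε, hb⟩ := Metric.eventually_nhds_iff.mp h
  have hs : ∀ _ : Fin 3, (Set.Ioo 0 (ε / 3)).Infinite := fun _ =>
    Set.Ioo_infinite (by positivity)
  refine MvPolynomial.funext_set (fun _ => Set.Ioo 0 (ε / 3)) hs ?_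
  intro x hx
  rw [map_zero]
  have hx' : ∀ i, x i ∈ Set.Ioo 0 (ε / 3) := fun i => hx i (Set.mem_univ i)
  have h1 := hb (y := WithLp.toLp 2 x) ?_
  · exact h1
  · rw [dist_zero_right, EuclideanSpace.norm_eq, Fin.sum_univ_three]
    have e : ∀ i : Fin 3, ‖(WithLp.toLp 2 x : E) i‖ ^ 2 < (ε / 3) ^ 2 := by
      intro i
      have h2 := hx' i
      change ‖x i‖ ^ 2 < (ε / 3) ^ 2
      rw [Real.norm_eq_abs, abs_of_pos h2.1]
      exact pow_lt_pow_left₀ h2.2 h2.1.le two_ne_zero
    rw [Real.sqrt_lt' hε]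
    have e0 := e 0
    have e1 := e 1
    have e2 := e 2
    nlinarith [sq_nonneg ε]

theorem card_le {n : ℕ} (hn : 1 ≤ n) (q : Fin n → ℝ) (a : Fin n → E)
    (Z : Finset (Finset (Fin n) × E))
    (hZ : ∀ z ∈ Z, z.2 ∈ equilibria (qs q z.1) a ∧
      HasNondegenerateHessianAt (potential (qs q z.1) a) z.2) :
    4 * Z.card ≤ 2 ^ n * (3 * n - 1) ^ 3 := by
  by_contra hcon
  rw [not_le] at hcon
  obtain ⟨c, d, hsep⟩ := exists_sep a Z (fun z hz => (hZ z hz).1.1)
  obtain ⟨p, ⟨α0, hα0, hp0⟩, hsum⟩ := dep a Z.card hcon (Ef q a) (fun i => Ef_mem a q i hn)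
    (Yf a c d) (Yf_mem a c d)
  -- separating neighbourhoods
  set T : Set ℝ := (fun z : Finset (Fin n) × E => Yf a c d z.1 z.2) '' (Z : Set _) with hT
  have hTfin : T.Finite := Z.finite_toSet.image _
  obtain ⟨U, hU, hdisj⟩ := hTfin.t2_separation
  have hloc : ∀ z ∈ Z, ∀ᶠ v : E in 𝓝 0, ∃ x : E, Yf a c d z.1 x ∈ U (Yf a c d z.1 z.2) ∧
      Fv q a z.1 x = v := by
    intro z hz
    obtain ⟨F', hF'⟩ := Fv_deriv q a z.1 z.2 (hZ z hz).1 (hZ z hz).2
    have hm := hF'.map_nhds_eq_of_equiv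
    have h0 : Fv q a z.1 z.2 = 0 := by
      ext i
      exact Ef_zero q a z.1 z.2 (hZ z hz).1 i
    rw [h0] at hm
    have hW : {x : E | Yf a c d z.1 x ∈ U (Yf a c d z.1 z.2)} ∈ 𝓝 z.2 :=
      (Yf_continuous a c d z.1).continuousAt.preimage_mem_nhds
        ((hU _).2.mem_nhds (hU _).1)
    have h2 := image_mem_map (m := Fv q a z.1) hW
    rw [hm] at h2
    filter_upwards [h2] with v hv
    obtain ⟨x, hx1, hx2⟩ := hv
    exact ⟨x, hx1, hx2⟩
  have hall : ∀ᶠ v : E in 𝓝 0, ∀ z ∈ Z, ∃ x : E, Yf a c d z.1 x ∈ U (Yf a c d z.1 z.2) ∧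
      Fv q a z.1 x = v := (Filter.eventually_all_finset Z).mpr hloc
  refine hp0 (poly_zero _ ?_)
  filter_upwards [hall] with v hv
  choose! X hX1 hX2 using hv
  set P : Polynomial ℝ := ∑ α ∈ Finset.range Z.card,
    Polynomial.C (MvPolynomial.eval (fun i => v i) (p α)) * Polynomial.X ^ α with hP
  have hroot : ∀ z ∈ Z, P.eval (Yf a c d z.1 (X z)) = 0 := by
    intro z hz
    have h1 := congrFun (congrFun hsum z.1) (X z)
    simp only [Finset.sum_apply, Pi.mul_apply, Pi.pow_apply, aeval_apply, Pi.zero_apply] at h1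
    have h2 : (fun i => Ef q a i z.1 (X z)) = fun i => v i := by
      funext i
      have := congrArg (fun w : E => w i) (hX2 z hz)
      simpa [Fv] using this
    rw [h2] at h1
    rw [hP, Polynomial.eval_finset_sum]
    simpa using h1
  have hinj : Set.InjOn (fun z : Finset (Fin n) × E => Yf a c d z.1 (X z)) (Z : Set _) := by
    intro z hz z' hz' he
    by_contra hne
    have h3 := hsep z hz z' hz' hne
    have h4 := hdisj (Set.mem_image_of_mem _ hz) (Set.mem_image_of_mem _ hz') h3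
    have h5 := hX1 z hz
    have h6 := hX1 z' hz'
    simp only at he
    rw [← he] at h6
    exact Set.disjoint_left.mp h4 h5 h6
  have hdeg : P.degree < Z.card := by
    rw [hP]
    refine lt_of_le_of_lt (Polynomial.degree_sum_le _ _) ?_
    rw [Finset.sup_lt_iff (by
      rw [bot_lt_iff_ne_bot]
      exact WithBot.natCast_ne_bot _)]
    intro α hα
    exact lt_of_le_of_lt (Polynomial.degree_C_mul_X_pow_le _ _)
      (by exact_mod_cast Finset.mem_range.mp hα)
  have hPz : P = 0 := by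
    by_contra hP0
    have h7 : (Z.image (fun z : Finset (Fin n) × E => Yf a c d z.1 (X z))).card = Z.card :=
      Finset.card_image_of_injOn hinj
    have h8 := Polynomial.card_le_degree_of_subset_roots (p := P)
      (Z := Z.image (fun z : Finset (Fin n) × E => Yf a c d z.1 (X z))) ?_
    · rw [h7] at h8
      have h9 : P.natDegree < Z.card := (Polynomial.natDegree_lt_iff_degree_lt hP0).mpr hdeg
      omega
    · intro r hr
      rw [Finset.mem_val, Finset.mem_image] at hr
      obtain ⟨z, hz, rfl⟩ := hr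
      exact (Polynomial.mem_roots hP0).mpr (hroot z hz)
  have h10 := congrArg (fun Q : Polynomial ℝ => Q.coeff α0) hPz
  simp only [hP, Polynomial.finset_sum_coeff, Polynomial.coeff_C_mul, Polynomial.coeff_X_pow,
    Polynomial.coeff_zero, mul_ite, mul_one, mul_zero] at h10
  rw [Finset.sum_ite_eq (Finset.range Z.card) α0] at h10
  simpa [hα0] using h10

end SA992
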