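import Mathlib
import Pool.Prelude.Def_F_d420a142
import Pool.Agent.Work.MP_992d6e_an.SA.Loc

/-!
The number of nondegenerate equilibria of `n` point charges is polynomially bounded on average over
the signs of the charges.
-/

set_option autoImplicit false

namespace Pool.Agent.Results.MP_992d6e_an.SignAverage

open N62f3cee0
open scoped Gradient

/-- The charges `q` with the signs of the charges in `s` changed. -/
def flip {n : ℕ} (q : Fin n → ℝ) (s : Finset (Fin n)) : Fin n → ℝ :=
  fun j => if j ∈ s then -q j else q j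

/-- The nondegenerate equilibria of a configuration. -/
def nondeg {n : ℕ} (q : Fin n → ℝ) (a : Fin n → EuclideanSpace ℝ (Fin 3)) :
    Set (EuclideanSpace ℝ (Fin 3)) :=
  {x | x ∈ equilibria q a ∧ HasNondegenerateHessianAt (potential q a) x}

lemma neg_potential {n : ℕ} (q : Fin n → ℝ) (a : Fin n → EuclideanSpace ℝ (Fin 3)) :
    potential (fun j => -q j) a = fun x => -potential q a x := by
  funext x
  simp [potential, neg_div]

lemma nondeg_neg {n : ℕ} (q : Fin n → ℝ) (a : Fin n → EuclideanSpace ℝ (Fin 3)) :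
    nondeg (fun j => -q j) a = nondeg q a := by
  ext x
  have hg : ∇ (fun x => -potential q a x) x = 0 ↔ ∇ (potential q a) x = 0 := by
    rw [PC992.gradient_eq_zero_iff, PC992.gradient_eq_zero_iff]
    have : fderiv ℝ (fun x => -potential q a x) x = -fderiv ℝ (potential q a) x := fderiv_fun_neg
    rw [this, neg_eq_zero]
  have hh : ∀ v w, iteratedFDeriv ℝ 2 (fun x => -potential q a x) x ![v, w] =
      -iteratedFDeriv ℝ 2 (potential q a) x ![v, w] := by
    intro v w
    have : iteratedFDeriv ℝ 2 (fun x => -potential q a x) x =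
        -iteratedFDeriv ℝ 2 (potential q a) x := iteratedFDeriv_neg_apply
    rw [this]
    rfl
  simp only [nondeg, equilibria, HasNondegenerateHessianAt, Set.mem_ofPred_eq, neg_potential, hg,
    hh, ne_eq, neg_eq_zero]

lemma finite_nondeg {n : ℕ} (hn : 1 ≤ n) (q : Fin n → ℝ)
    (a : Fin n → EuclideanSpace ℝ (Fin 3)) (s : Finset (Fin n)) :
    (nondeg (flip q s) a).Finite := by
  by_contra hinf
  obtain ⟨T, hT, hcard⟩ := Set.Infinite.exists_subset_card_eq hinf (2 ^ n * (3 * n - 1) ^ 3 + 1)
  have h := SA992.card_le hn q a (T.map ⟨fun x => (s, x), fun x y h => (Prod.ext_iff.mp h).2⟩) ?_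
  · rw [Finset.card_map, hcard] at h
    omega
  · intro z hz
    rw [Finset.mem_map] at hz
    obtain ⟨x, hx, rfl⟩ := hz
    exact hT hx

lemma sum_le {n : ℕ} (hn : 1 ≤ n) (q : Fin n → ℝ) (a : Fin n → EuclideanSpace ℝ (Fin 3)) :
    4 * ∑ s : Finset (Fin n), (finite_nondeg hn q a s).toFinset.card ≤
      2 ^ n * (3 * n - 1) ^ 3 := by
  classical
  have h := SA992.card_le hn q a
    (Finset.univ.biUnion fun s => (finite_nondeg hn q a s).toFinset.map
      ⟨fun x => (s, x), fun x y h => (Prod.ext_iff.mp h).2⟩) ?_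
  · rw [Finset.card_biUnion] at h
    · simpa using h
    · intro s _ s' _ hne
      refine Finset.disjoint_left.mpr ?_
      intro z hz hz'
      rw [Finset.mem_map] at hz hz'
      obtain ⟨x, -, rfl⟩ := hz
      obtain ⟨y, -, hy⟩ := hz'
      exact hne (Prod.ext_iff.mp hy).1.symm
  · intro z hz
    rw [Finset.mem_biUnion] at hz
    obtain ⟨s, -, hz⟩ := hz
    rw [Finset.mem_map] at hz
    obtain ⟨x, hx, rfl⟩ := hz
    exact (finite_nondeg hn q a s).mem_toFinset.mp hx

/-- Let `n ≥ 1` and let `q, a` be any charges and positions in `ℝ³`.  For a set `s` of charges let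
`N(s)` be the number of nondegenerate equilibria after changing the signs of the charges in `s`.
(i) `4 * Σ_s N(s) ≤ 2^n (3n-1)^3`.
(ii) `8 * N(∅) ≤ 2^n (3n-1)^3`.
(iii) For every `k`, at most `2^n / n^k` of the `2^n` sets `s` have `N(s) ≥ 7 n^(k+3)`. -/
theorem result (n : ℕ) (hn : 1 ≤ n) (q : Fin n → ℝ) (a : Fin n → EuclideanSpace ℝ (Fin 3)) :
    4 * ∑ s : Finset (Fin n), (nondeg (flip q s) a).encard ≤ (2 ^ n * (3 * n - 1) ^ 3 : ℕ) ∧
    8 * (nondeg q a).encard ≤ (2 ^ n * (3 * n - 1) ^ 3 : ℕ) ∧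
    ∀ k : ℕ, n ^ k * {s : Finset (Fin n) | ((7 * n ^ (k + 3) : ℕ) : ℕ∞) ≤
      (nondeg (flip q s) a).encard}.ncard ≤ 2 ^ n := by
  have hfin := finite_nondeg hn q a
  have hsum := sum_le hn q a
  have henc : ∀ s, (nondeg (flip q s) a).encard = ((hfin s).toFinset.card : ℕ∞) := fun s => by
    rw [(hfin s).encard_eq_coe_toFinset_card]
  refine ⟨?_, ?_, ?_⟩
  · simp only [henc]
    exact_mod_cast hsum
  · have h1 : nondeg (flip q ∅) a = nondeg q a := by
      have : flip q ∅ = q := by
        funext j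
        simp [flip]
      rw [this]
    have h2 : nondeg (flip q Finset.univ) a = nondeg q a := by
      rw [← nondeg_neg q a]
      have : flip q Finset.univ = fun j => -q j := by
        funext j
        simp [flip]
      rw [this]
    have hq : (nondeg q a).encard = ((hfin ∅).toFinset.card : ℕ∞) := by rw [← henc, h1]
    have hcard : (hfin ∅).toFinset.card = (hfin Finset.univ).toFinset.card := by
      congr 1
      ext x
      rw [Set.Finite.mem_toFinset, Set.Finite.mem_toFinset, h1, h2]
    have hne : (∅ : Finset (Fin n)) ≠ Finset.univ := by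
      intro h
      have := Finset.mem_univ (⟨0, hn⟩ : Fin n)
      rw [← h] at this
      exact absurd this (Finset.notMem_empty _)
    have h3 : ∑ s ∈ ({∅, Finset.univ} : Finset (Finset (Fin n))), (hfin s).toFinset.card ≤
        ∑ s : Finset (Fin n), (hfin s).toFinset.card :=
      Finset.sum_le_sum_of_subset (Finset.subset_univ _)
    rw [Finset.sum_pair hne, ← hcard] at h3
    rw [hq]
    have : 8 * (hfin ∅).toFinset.card ≤ 2 ^ n * (3 * n - 1) ^ 3 := by
      calc 8 * (hfin ∅).toFinset.card =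
          4 * ((hfin ∅).toFinset.card + (hfin ∅).toFinset.card) := by ring
        _ ≤ 4 * ∑ s : Finset (Fin n), (hfin s).toFinset.card := Nat.mul_le_mul_left _ h3
        _ ≤ _ := hsum
    exact_mod_cast this
  · intro k
    have hset : {s : Finset (Fin n) | ((7 * n ^ (k + 3) : ℕ) : ℕ∞) ≤
        (nondeg (flip q s) a).encard} = ((Finset.univ.filter fun s : Finset (Fin n) =>
          7 * n ^ (k + 3) ≤ (hfin s).toFinset.card : Finset (Finset (Fin n))) : Set _) := by
      ext s
      simp only [Set.mem_ofPred_eq, henc, Finset.coe_filter, Finset.mem_univ, true_and]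
      exact_mod_cast Iff.rfl
    rw [hset, Set.ncard_coe_finset]
    set A := Finset.univ.filter fun s : Finset (Fin n) =>
          7 * n ^ (k + 3) ≤ (hfin s).toFinset.card with hA
    have h4 : A.card * (7 * n ^ (k + 3)) ≤ ∑ s : Finset (Fin n), (hfin s).toFinset.card := by
      calc A.card * (7 * n ^ (k + 3)) = ∑ s ∈ A, 7 * n ^ (k + 3) := by
            rw [Finset.sum_const, smul_eq_mul]
        _ ≤ ∑ s ∈ A, (hfin s).toFinset.card :=
            Finset.sum_le_sum fun s hs => (Finset.mem_filter.mp hs).2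
        _ ≤ _ := Finset.sum_le_sum_of_subset (Finset.subset_univ _)
    have h5 : (3 * n - 1) ^ 3 ≤ 27 * n ^ 3 := by
      calc (3 * n - 1) ^ 3 ≤ (3 * n) ^ 3 := Nat.pow_le_pow_left (Nat.sub_le _ _) 3
        _ = 27 * n ^ 3 := by ring
    have h6 : 28 * n ^ 3 * (n ^ k * A.card) ≤ 28 * n ^ 3 * 2 ^ n := by
      calc 28 * n ^ 3 * (n ^ k * A.card) = 4 * (A.card * (7 * n ^ (k + 3))) := by ring
        _ ≤ 4 * ∑ s : Finset (Fin n), (hfin s).toFinset.card := Nat.mul_le_mul_left _ h4
        _ ≤ 2 ^ n * (3 * n - 1) ^ 3 := hsum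
        _ ≤ 2 ^ n * (27 * n ^ 3) := Nat.mul_le_mul_left _ h5
        _ ≤ 28 * n ^ 3 * 2 ^ n := by nlinarith [Nat.zero_le (2 ^ n * n ^ 3)]
    exact Nat.le_of_mul_le_mul_left h6 (by positivity)

end Pool.Agent.Results.MP_992d6e_an.SignAverage
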