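import Pool.Agent.Work.MP_992d6e_an.SA.Defs

/-!
MODULE Span (MP_992d6e_an, sign average).  The spaces `R a D` form a filtration of an algebra.

`R_mono`: clear.  `one_mem`: `mon (0,0,0,false,∅) = 1`.
Multiplication by a generator (prove by `Submodule.span_induction` on `f`, linear in `f`):
* `co 0`, `co 1`, `tt` times `mon m` is `mon m'` with one exponent raised, weight `+2`;
* `co 2 * mon m`: if `δ = false` it is `mon m'` with `δ = true`; if `δ = true` use
  `co 2 ^ 2 = tt - co 0 ^ 2 - co 1 ^ 2` (`‖x‖^2 = x_0^2 + x_1^2 + x_2^2`, `EuclideanSpace.norm_eq` or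
  `EuclideanSpace.norm_sq_eq`, `Fin.sum_univ_three`); with `m0` = `m` with `δ := false`
  (weight `wt m - 2`) the product is `mon (m0, γ+1) - mon (m0, α+2) - mon (m0, β+2)`, of weights
  `wt m`, `wt m + 2`, `wt m + 2`;
* `rr a k * mon m` with `k ∉ S`: `mon` with `insert k S`, weight `+1`.  With `k ∈ S`:
  `(rr a k)^2 = tt - 2 * Σ_i (a k i) • co i + C (‖a k‖^2)`  (both signs square to `dist x (a k) ^ 2 =
  ‖x - a k‖^2`, `norm_sub_sq_real`, inner product of `EuclideanSpace` by `PiLp.inner_apply`,
  `Fin.sum_univ_three`), and `mon m = rr a k * mon m0`, `m0` = `m` with `S.erase k`, weight `wt m - 1`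
  (`Finset.mul_prod_erase`), so the product is `tt * mon m0 - 2 Σ_i a_ki • (co i * mon m0) +
  ‖a k‖^2 • mon m0` in `R (wt m - 1 + 2)` by the first items.
`mul_mem`: `mon m` is a product of generators; by the previous items and induction on the exponents
(and `Finset.induction` for `S`) `mon m * g ∈ R (wt m + D')` for `g ∈ R D'`; then span induction on `f`
and `R_mono`.
`Ef_mem`: `Ef q a i = Σ_j q_j • ((co i - C (a j i)) * ∏_{k ≠ j} (rr a k)^3)`, each product of `n - 1`
cubes lies in `R (3 (n-1))` (`Finset.prod` induction with `mul_mem`), `3 (n-1) + 2 = 3n - 1` for `n ≥ 1`.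
`Yf_mem`: clear.
-/

set_option autoImplicit false

namespace SA992

variable {n : ℕ} (a : Fin n → E)

theorem R_mono {D D' : ℕ} (h : D ≤ D') : R a D ≤ R a D' :=
  Submodule.span_mono (Set.image_mono fun _ hm => le_trans hm h)

private theorem sp_mon {m : Idx n} {D : ℕ} (h : wt m ≤ D) : mon a m ∈ R a D :=
  Submodule.subset_span ⟨m, h, rfl⟩

private theorem sp_gen (g : Fun n) (D D' : ℕ) (h : ∀ m, wt m ≤ D → g * mon a m ∈ R a D')
    {f : Fun n} (hf : f ∈ R a D) : g * f ∈ R a D' := by
  have h1 : R a D ≤ (R a D').comap (LinearMap.mulLeft ℝ g) := by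
    refine Submodule.span_le.2 ?_
    rintro _ ⟨m, hm, rfl⟩
    exact h m hm
  exact h1 hf

theorem one_mem : (1 : Fun n) ∈ R a 0 := by
  have h : (1 : Fun n) = mon a (0, 0, 0, false, ∅) := by
    simp [mon]
  rw [h]
  exact sp_mon a (by simp [wt])

private theorem sp_co2 : (co 2 : Fun n) * co 2 = tt - co 0 ^ 2 - co 1 ^ 2 := by
  funext s x
  simp only [Pi.mul_apply, Pi.sub_apply, Pi.pow_apply, co, tt]
  rw [EuclideanSpace.norm_sq_eq, Fin.sum_univ_three]
  simp only [Real.norm_eq_abs, sq_abs]
  ring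

theorem co_mul_mem (i : Fin 3) {D : ℕ} {f : Fun n} (hf : f ∈ R a D) : co i * f ∈ R a (D + 2) := by
  refine sp_gen a _ D _ (fun m hm => ?_) hf
  obtain ⟨α, β, γ, δ, S⟩ := m
  fin_cases i
  · have h : (co 0 : Fun n) * mon a (α, β, γ, δ, S) = mon a (α + 1, β, γ, δ, S) := by
      simp only [mon]
      ring
    show co 0 * mon a (α, β, γ, δ, S) ∈ _
    rw [h]
    refine sp_mon a ?_
    simp only [wt] at hm ⊢
    omega
  · have h : (co 1 : Fun n) * mon a (α, β, γ, δ, S) = mon a (α, β + 1, γ, δ, S) := by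
      simp only [mon]
      ring
    show co 1 * mon a (α, β, γ, δ, S) ∈ _
    rw [h]
    refine sp_mon a ?_
    simp only [wt] at hm ⊢
    omega
  · show co 2 * mon a (α, β, γ, δ, S) ∈ _
    cases δ with
    | false =>
      have h : (co 2 : Fun n) * mon a (α, β, γ, false, S) = mon a (α, β, γ, true, S) := by
        simp only [mon, if_true, Bool.false_eq_true, if_false]
        ring
      rw [h]
      refine sp_mon a ?_
      simp only [wt, if_true, Bool.false_eq_true, if_false] at hm ⊢
      omega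
    | true =>
      have h : (co 2 : Fun n) * mon a (α, β, γ, true, S) = mon a (α, β, γ + 1, false, S) -
          mon a (α + 2, β, γ, false, S) - mon a (α, β + 2, γ, false, S) := by
        simp only [mon, if_true, Bool.false_eq_true, if_false]
        linear_combination (co 0 ^ α * co 1 ^ β * tt ^ γ * ∏ k ∈ S, rr a k) * sp_co2 (n := n)
      rw [h]
      simp only [wt, if_true] at hm
      refine Submodule.sub_mem _ (Submodule.sub_mem _ (sp_mon a ?_) (sp_mon a ?_)) (sp_mon a ?_) <;>
      · simp only [wt, Bool.false_eq_true, if_false]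
        omega

theorem tt_mul_mem {D : ℕ} {f : Fun n} (hf : f ∈ R a D) : tt * f ∈ R a (D + 2) := by
  refine sp_gen a _ D _ (fun m hm => ?_) hf
  obtain ⟨α, β, γ, δ, S⟩ := m
  have h : (tt : Fun n) * mon a (α, β, γ, δ, S) = mon a (α, β, γ + 1, δ, S) := by
    simp only [mon]
    ring
  rw [h]
  refine sp_mon a ?_
  simp only [wt] at hm ⊢
  omega

private theorem sp_rr (k : Fin n) : rr a k * rr a k =
    tt - (2 : ℝ) • ∑ i, (a k i) • (co i : Fun n) + (‖a k‖ ^ 2) • (1 : Fun n) := by
  funext s x
  have h1 : rr a k s x * rr a k s x = dist x (a k) ^ 2 := by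
    unfold rr
    split_ifs <;> ring
  have h2 : dist x (a k) ^ 2 = ‖x‖ ^ 2 - 2 * ∑ i, a k i * x i + ‖a k‖ ^ 2 := by
    rw [dist_eq_norm, norm_sub_sq_real]
    congr 3
  simp only [Pi.mul_apply, Pi.sub_apply, Pi.add_apply, Pi.smul_apply, Finset.sum_apply, co, tt,
    smul_eq_mul, Pi.one_apply, mul_one]
  rw [h1, h2]

theorem rr_mul_mem (k : Fin n) {D : ℕ} {f : Fun n} (hf : f ∈ R a D) :
    rr a k * f ∈ R a (D + 1) := by
  refine sp_gen a _ D _ (fun m hm => ?_) hf
  obtain ⟨α, β, γ, δ, S⟩ := m
  by_cases hk : k ∈ S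
  · have h : rr a k * mon a (α, β, γ, δ, S) = (rr a k * rr a k) * mon a (α, β, γ, δ, S.erase k) := by
      simp only [mon]
      rw [← Finset.mul_prod_erase S (rr a) hk]
      ring
    have hc : (S.erase k).card + 1 = S.card := Finset.card_erase_add_one hk
    have hw : wt (α, β, γ, δ, S.erase k) ≤ D - 1 := by
      simp only [wt] at hm ⊢
      omega
    have hD : 1 ≤ D := by
      simp only [wt] at hm
      omega
    have h0 := sp_mon a hw
    have hle : D - 1 + 2 = D + 1 := by omega
    rw [h, sp_rr, add_mul, sub_mul, smul_mul_assoc, Finset.sum_mul, smul_mul_assoc, one_mul]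
    refine Submodule.add_mem _ (Submodule.sub_mem _ ?_ (Submodule.smul_mem _ _ ?_))
      (Submodule.smul_mem _ _ (R_mono a (by omega) h0))
    · have := tt_mul_mem a h0
      rwa [hle] at this
    · refine Submodule.sum_mem _ fun i _ => ?_
      rw [smul_mul_assoc]
      refine Submodule.smul_mem _ _ ?_
      have := co_mul_mem a i h0
      rwa [hle] at this
  · have h : rr a k * mon a (α, β, γ, δ, S) = mon a (α, β, γ, δ, insert k S) := by
      simp only [mon]
      rw [Finset.prod_insert hk]
      ring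
    rw [h]
    refine sp_mon a ?_
    have hc := Finset.card_insert_of_notMem hk
    simp only [wt] at hm ⊢
    omega

private theorem sp_pow (x : Fun n) (w : ℕ) (hx : ∀ (D : ℕ) (f : Fun n), f ∈ R a D →
    x * f ∈ R a (D + w)) (k : ℕ) : ∀ (D : ℕ) (f : Fun n), f ∈ R a D → x ^ k * f ∈ R a (D + k * w) := by
  induction k with
  | zero =>
    intro D f hf
    simpa using hf
  | succ k ih =>
    intro D f hf
    have h1 := hx _ _ (ih D f hf)
    rw [← mul_assoc, ← pow_succ'] at h1
    have e : D + k * w + w = D + (k + 1) * w := by ring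
    rwa [e] at h1

theorem mul_mem {D D' : ℕ} {f g : Fun n} (hf : f ∈ R a D) (hg : g ∈ R a D') :
    f * g ∈ R a (D + D') := by
  rw [mul_comm]
  refine sp_gen a _ D _ (fun m hm => ?_) hf
  rw [mul_comm]
  obtain ⟨α, β, γ, δ, S⟩ := m
  have h1 : (∏ k ∈ S, rr a k) * g ∈ R a (D' + S.card) := by
    clear hm
    induction S using Finset.induction_on with
    | empty => simpa using hg
    | insert k S hk ih =>
      rw [Finset.prod_insert hk, mul_assoc, Finset.card_insert_of_notMem hk, ← add_assoc]
      exact rr_mul_mem a k ih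
  have h2 : (if δ then (co 2 : Fun n) else 1) * ((∏ k ∈ S, rr a k) * g) ∈
      R a (D' + S.card + 2 * (if δ then 1 else 0)) := by
    cases δ with
    | false => simpa using h1
    | true =>
      simp only [if_true, mul_one]
      exact co_mul_mem a 2 h1
  have h3 := sp_pow a tt 2 (fun D f hf => tt_mul_mem a hf) γ _ _ h2
  have h4 := sp_pow a (co 1) 2 (fun D f hf => co_mul_mem a 1 hf) β _ _ h3
  have h5 := sp_pow a (co 0) 2 (fun D f hf => co_mul_mem a 0 hf) α _ _ h4
  have e : mon a (α, β, γ, δ, S) * g = co 0 ^ α * (co 1 ^ β * (tt ^ γ *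
      ((if δ then (co 2 : Fun n) else 1) * ((∏ k ∈ S, rr a k) * g)))) := by
    simp only [mon]
    ring
  rw [e]
  refine R_mono a ?_ h5
  simp only [wt] at hm
  omega

theorem pow_mem {D : ℕ} {f : Fun n} (hf : f ∈ R a D) (m : ℕ) : f ^ m ∈ R a (m * D) := by
  induction m with
  | zero => simpa using one_mem a
  | succ m ih =>
    rw [pow_succ, Nat.succ_mul]
    exact mul_mem a ih hf

private theorem sp_co_mem (i : Fin 3) : (co i : Fun n) ∈ R a 2 := by
  have := co_mul_mem a i (one_mem a)
  rwa [mul_one, zero_add] at this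

private theorem sp_rr_mem (k : Fin n) : rr a k ∈ R a 1 := by
  have := rr_mul_mem a k (one_mem a)
  rwa [mul_one, zero_add] at this

theorem Ef_mem (q : Fin n → ℝ) (i : Fin 3) (hn : 1 ≤ n) : Ef q a i ∈ R a (3 * n - 1) := by
  have h : Ef q a i = ∑ j, q j • (((co i : Fun n) - (a j i) • (1 : Fun n)) *
      ∏ k ∈ Finset.univ.erase j, (rr a k) ^ 3) := by
    funext s x
    simp only [Ef, Finset.sum_apply, Pi.smul_apply, Pi.mul_apply, Pi.sub_apply, Pi.one_apply,
      Finset.prod_apply, Pi.pow_apply, smul_eq_mul, mul_one, co]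
    exact Finset.sum_congr rfl fun j _ => by ring
  rw [h]
  refine Submodule.sum_mem _ fun j _ => Submodule.smul_mem _ _ ?_
  have h1 : (co i : Fun n) - (a j i) • (1 : Fun n) ∈ R a 2 :=
    Submodule.sub_mem _ (sp_co_mem a i) (Submodule.smul_mem _ _ (R_mono a (by omega) (one_mem a)))
  have h2 : ∀ T : Finset (Fin n), ∏ k ∈ T, (rr a k) ^ 3 ∈ R a (3 * T.card) := by
    intro T
    induction T using Finset.induction_on with
    | empty => simpa using one_mem a
    | insert k T hk ih =>
      rw [Finset.prod_insert hk, Finset.card_insert_of_notMem hk]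
      have h3 := mul_mem a (pow_mem a (sp_rr_mem a k) 3) ih
      have e : 3 * 1 + 3 * T.card = 3 * (T.card + 1) := by ring
      rwa [e] at h3
  have h4 := mul_mem a h1 (h2 (Finset.univ.erase j))
  refine R_mono a ?_ h4
  rw [Finset.card_erase_of_mem (Finset.mem_univ j), Finset.card_univ, Fintype.card_fin]
  omega

theorem Yf_mem (c : Fin 3 → ℝ) (d : Fin n → ℝ) : Yf a c d ∈ R a 2 := by
  have h : Yf a c d = ∑ i, c i • (co i : Fun n) + ∑ k, d k • rr a k := by
    funext s x
    simp only [Yf, Pi.add_apply, Finset.sum_apply, Pi.smul_apply, smul_eq_mul, co]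
  rw [h]
  refine Submodule.add_mem _ (Submodule.sum_mem _ fun i _ => Submodule.smul_mem _ _ (sp_co_mem a i))
    (Submodule.sum_mem _ fun k _ => Submodule.smul_mem _ _ (R_mono a (by omega) (sp_rr_mem a k)))

end SA992
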